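import Mathlib
import Pool.Agent.H244Z.CB.Defs
import Pool.Agent.H244Z.CB.KS

set_option autoImplicit false

namespace Pool.Agent.Results.MP_daea50_lc.MinimalKSigma

open Pool.Agent.H244Z.CB

/-- Every non-smooth aperiodic countable Borel equivalence relation is Borel isomorphic to an
equivalence relation on a compact Polish space which has all classes dense and is a countable
union of compact subsets of the square. -/
theorem result (X : Type) [MeasurableSpace X] [StandardBorelSpace X] [Uncountable X]
    (E : X → X → Prop) (hE : IsAperiodicCBER E) (hns : ¬ IsSmooth E) :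
    ∃ (Y : Type) (_ : TopologicalSpace Y) (_ : PolishSpace Y) (_ : CompactSpace Y)
      (_ : MeasurableSpace Y) (_ : BorelSpace Y) (F : Y → Y → Prop),
      Equivalence F ∧ BorelIso E F ∧ IsMinimalRel F ∧
      ∃ C : ℕ → Set (Y × Y), (∀ n, IsCompact (C n)) ∧ {p : Y × Y | F p.1 p.2} = ⋃ n, C n :=
  minimal_ksigma X E hE hns

end Pool.Agent.Results.MP_daea50_lc.MinimalKSigma
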